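import Pool.Agent.H380.BG.Stm

/-!
# The functional equation of the completed Rankin-Selberg function (task FEP of project BG)
-/

set_option autoImplicit false

namespace Pool.Agent.H603.BG

open Complex MeasureTheory Filter Topology Set Asymptotics
open Pool.Agent.H380.BG
open scoped ENNReal Real

/-- The abstract statement: a positive decreasing function with the functional equation of a theta
function. -/
theorem gen (g : ℝ → ℝ) (c : ℝ) (hg : ∀ t, 0 ≤ g t) (hanti : AntitoneOn g (Ioi 0))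
    (htop : ∀ r : ℝ, ∃ C : ℝ, ∀ t : ℝ, 1 ≤ t → g t ≤ C * t ^ r)
    (hfe : ∀ t : ℝ, 0 < t → c + g (1 / t) = t * (c + g t)) :
    ∃ E : ℂ → ℂ, Differentiable ℂ E ∧ (∀ s, E (1 - s) = E s) ∧ E 1 = c ∧
      (∃ C : ℝ, ∀ s : ℂ, -1 ≤ s.re → s.re ≤ 2 → ‖E s‖ ≤ C * (1 + ‖s‖) ^ 2) ∧
      ∀ s : ℝ, 1 < s → E s =
        ((s * (s - 1) * ∫ t in Ioi (0 : ℝ), t ^ (s - 1) * g t : ℝ) : ℂ) := by
  have hint : LocallyIntegrableOn (fun t : ℝ => (((c + g t : ℝ)) : ℂ)) (Ioi 0) := by
    have h1 : LocallyIntegrableOn (fun t : ℝ => c + g t) (Ioi (0:ℝ)) := by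
      rw [locallyIntegrableOn_iff isOpen_Ioi.isLocallyClosed]
      intro k hk hkc
      refine AntitoneOn.integrableOn_isCompact hkc ?_
      intro x hx y hy hxy
      have := hanti (hk hx) (hk hy) hxy
      simp only
      linarith
    intro x hx
    obtain ⟨u, hu, hu'⟩ := h1 x hx
    exact ⟨u, hu, hu'.ofReal⟩
  have hbig : ∀ r : ℝ, (fun t : ℝ => (((c + g t : ℝ)) : ℂ) - (c : ℂ)) =O[atTop] (fun t => t ^ r) := by
    intro r
    obtain ⟨C, hC⟩ := htop r
    refine IsBigO.of_bound C ?_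
    filter_upwards [eventually_ge_atTop (1:ℝ)] with t ht
    have ht0 : 0 < t := by linarith
    have h2 : (((c + g t : ℝ)) : ℂ) - (c : ℂ) = ((g t : ℝ) : ℂ) := by
      push_cast
      ring
    rw [h2, Complex.norm_real, Real.norm_of_nonneg (hg t), Real.norm_of_nonneg (by positivity)]
    exact hC t ht
  obtain ⟨P, hPf, hPg, hPk, hPe, hPf0, hPg0⟩ : ∃ P : WeakFEPair ℂ,
      (P.f = fun t : ℝ => (((c + g t : ℝ)) : ℂ)) ∧ (P.g = fun t : ℝ => (((c + g t : ℝ)) : ℂ)) ∧
      P.k = 1 ∧ P.ε = 1 ∧ P.f₀ = (c : ℂ) ∧ P.g₀ = (c : ℂ) :=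
    ⟨{ f := fun t : ℝ => (((c + g t : ℝ)) : ℂ)
       g := fun t : ℝ => (((c + g t : ℝ)) : ℂ)
       k := 1
       ε := 1
       f₀ := (c : ℂ)
       g₀ := (c : ℂ)
       hf_int := hint
       hg_int := hint
       hk := one_pos
       hε := one_ne_zero
       h_feq := by
        intro x hx
        have hx0 : (0:ℝ) < x := hx
        rw [hfe x hx0, Real.rpow_one, one_mul, smul_eq_mul]
        push_cast
        ring
       hf_top := hbig
       hg_top := hbig }, rfl, rfl, rfl, rfl, rfl, rfl⟩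
  have hsymm : P.symm.Λ₀ = P.Λ₀ := by
    have h1 : P.symm.f_modif = P.f_modif := by
      unfold WeakFEPair.f_modif
      simp only [WeakFEPair.symm_f, WeakFEPair.symm_f₀, WeakFEPair.symm_g₀, WeakFEPair.symm_k,
        WeakFEPair.symm_ε, hPf, hPg, hPk, hPe, hPf0, hPg0, inv_one]
    unfold WeakFEPair.Λ₀
    rw [h1]
  have hFE : ∀ s : ℂ, P.Λ₀ (1 - s) = P.Λ₀ s := by
    intro s
    have h1 := P.functional_equation₀ s
    rw [hsymm, hPk, hPe, one_smul, Complex.ofReal_one] at h1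
    exact h1
  -- the bound
  have hconv : ∀ s : ℂ, MellinConvergent P.f_modif s := fun s =>
    (P.isStrongFEPair_toStrongFEPair.hasMellin s).1
  have hni : ∀ σ : ℝ, IntegrableOn (fun y : ℝ => y ^ (σ - 1) * ‖P.f_modif y‖) (Ioi 0) := by
    intro σ
    have h1 := (hconv (σ : ℂ)).norm
    refine (integrableOn_congr_fun ?_ measurableSet_Ioi).1 h1
    intro y hy
    have hy0 : (0 : ℝ) < y := hy
    show ‖(y : ℂ) ^ ((σ : ℂ) - 1) • P.f_modif y‖ = _
    rw [norm_smul, Complex.norm_cpow_eq_rpow_re_of_pos hy0]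
    simp
  have hle : ∀ s : ℂ, ‖P.Λ₀ s‖ ≤ ∫ y in Ioi (0 : ℝ), y ^ (s.re - 1) * ‖P.f_modif y‖ := by
    intro s
    unfold WeakFEPair.Λ₀ mellin
    refine (norm_integral_le_integral_norm _).trans (le_of_eq ?_)
    refine setIntegral_congr_fun measurableSet_Ioi fun y hy => ?_
    have hy0 : (0 : ℝ) < y := hy
    show ‖(y : ℂ) ^ (s - 1) • P.f_modif y‖ = _
    rw [norm_smul, Complex.norm_cpow_eq_rpow_re_of_pos hy0]
    simp
  obtain ⟨M, hM0, hM⟩ : ∃ M : ℝ, 0 ≤ M ∧ ∀ s : ℂ, -1 ≤ s.re → s.re ≤ 2 → ‖P.Λ₀ s‖ ≤ M := by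
    refine ⟨∫ y in Ioi (0 : ℝ), (y ^ ((-1:ℝ) - 1) * ‖P.f_modif y‖ + y ^ ((2:ℝ) - 1) * ‖P.f_modif y‖),
      ?_, fun s h1 h2 => ?_⟩
    · refine setIntegral_nonneg measurableSet_Ioi fun y hy => ?_
      have hy0 : (0 : ℝ) < y := hy
      positivity
    · refine (hle s).trans ?_
      refine setIntegral_mono_on (hni s.re) ((hni (-1)).add (hni 2)) measurableSet_Ioi fun y hy => ?_
      have hy0 : (0 : ℝ) < y := hy
      rw [← add_mul]
      refine mul_le_mul_of_nonneg_right ?_ (norm_nonneg _)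
      rcases le_total y 1 with h | h
      · have := Real.rpow_le_rpow_of_exponent_ge hy0 h (show (-1:ℝ) - 1 ≤ s.re - 1 by linarith)
        have h3 : 0 ≤ y ^ ((2:ℝ) - 1) := by positivity
        linarith
      · have := Real.rpow_le_rpow_of_exponent_le h (show s.re - 1 ≤ (2:ℝ) - 1 by linarith)
        have h3 : 0 ≤ y ^ ((-1:ℝ) - 1) := by positivity
        linarith
  refine ⟨fun s => s * (s - 1) * P.Λ₀ s + c, ?_, ?_, ?_, ?_, ?_⟩
  · exact (((differentiable_id).mul (differentiable_id.sub_const 1)).mul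
      P.differentiable_Λ₀).add_const _
  · intro s
    simp only
    rw [hFE]
    ring
  · simp
  · refine ⟨M + |c|, ?_⟩
    intro s h1 h2
    have h3 : ‖s * (s - 1) * P.Λ₀ s + c‖ ≤ ‖s‖ * (‖s‖ + 1) * M + |c| := by
      refine (norm_add_le _ _).trans ?_
      rw [norm_mul, norm_mul, Complex.norm_real, Real.norm_eq_abs]
      have h4 : ‖s - 1‖ ≤ ‖s‖ + 1 := (norm_sub_le _ _).trans (by simp)
      have h5 : ‖s‖ * ‖s - 1‖ ≤ ‖s‖ * (‖s‖ + 1) := mul_le_mul_of_nonneg_left h4 (norm_nonneg _)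
      have h6 : ‖s‖ * ‖s - 1‖ * ‖P.Λ₀ s‖ ≤ ‖s‖ * (‖s‖ + 1) * M :=
        mul_le_mul h5 (hM s h1 h2) (norm_nonneg _) (by positivity)
      linarith
    refine h3.trans ?_
    have h7 : 0 ≤ ‖s‖ := norm_nonneg s
    have h8 : 0 ≤ |c| := abs_nonneg c
    have h9 : ‖s‖ * (‖s‖ + 1) ≤ (1 + ‖s‖) ^ 2 := by nlinarith
    have h10 : 1 ≤ (1 + ‖s‖) ^ 2 := by nlinarith
    have h11 := mul_le_mul_of_nonneg_right h9 hM0
    have h12 := mul_le_mul_of_nonneg_right h10 h8
    linarith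
  · intro s hs
    have hre : P.k < ((s : ℂ)).re := by
      rw [hPk, Complex.ofReal_re]
      exact hs
    have h1 := (P.hasMellin hre).2
    have h2 : mellin (fun x => P.f x - P.f₀) (s : ℂ) =
        ((∫ t in Ioi (0 : ℝ), t ^ (s - 1) * g t : ℝ) : ℂ) := by
      unfold mellin
      rw [← integral_complex_ofReal]
      refine setIntegral_congr_fun measurableSet_Ioi fun y hy => ?_
      have hy0 : (0 : ℝ) < y := hy
      show (y : ℂ) ^ ((s : ℂ) - 1) • (P.f y - P.f₀) = _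
      rw [hPf, hPf0, smul_eq_mul]
      push_cast
      rw [Complex.ofReal_cpow hy0.le]
      push_cast
      ring
    rw [h2] at h1
    have h3 := P.Λ₀_eq (s : ℂ)
    rw [← h1, hPk, hPe, hPf0, hPg0, smul_eq_mul, smul_eq_mul] at h3
    show (s : ℂ) * ((s : ℂ) - 1) * P.Λ₀ s + c = _
    rw [h3]
    have hs0 : (s : ℂ) ≠ 0 := by
      have : s ≠ 0 := by linarith
      exact_mod_cast this
    have hs1 : (1 : ℂ) - s ≠ 0 := by
      intro h4
      have h5 : (s : ℂ) = 1 := by linear_combination -h4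
      have h6 : s = 1 := by exact_mod_cast h5
      linarith
    push_cast
    field_simp
    ring

theorem t_FEP (h : S_TH) (h3 : S_INT) : S_FEP := by
  obtain ⟨hT1, hT2, hT3, hT4, hT5⟩ := h
  obtain ⟨hn0, hn1, hrs, -⟩ := h3
  obtain ⟨c, hc⟩ : ∃ c : ℝ, c = (nu univ).toReal := ⟨_, rfl⟩
  have hc0 : 0 < c := by rw [hc]; exact ENNReal.toReal_pos hn0 hn1
  have hanti : AntitoneOn (fun t => (Th t).toReal) (Ioi 0) := by
    intro x hx y hy hxy
    exact ENNReal.toReal_mono (hT1 x hx) (hT4 x y hx hxy)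
  obtain ⟨E, h1, h2, h4, h5, h6⟩ := gen (fun t => (Th t).toReal) c (fun t => ENNReal.toReal_nonneg)
    hanti (by
      intro r
      obtain ⟨C, hC0, hC⟩ := hT2 (-r)
      refine ⟨C, fun t ht => ?_⟩
      have h7 := hC t ht
      rw [neg_neg] at h7
      exact ENNReal.toReal_le_of_le_ofReal (by positivity) h7) (by
      intro t ht
      have h7 := congrArg ENNReal.toReal (hT3 t ht)
      rw [ENNReal.toReal_add hn1 (hT1 (1 / t) (by positivity)), ENNReal.toReal_mul,
        ENNReal.toReal_add hn1 (hT1 t ht), ENNReal.toReal_ofReal ht.le, ← hc] at h7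
      exact h7)
  refine ⟨E, c, hc0, h1, h2, h4, h5, ?_⟩
  intro s hs
  rw [h6 s hs]
  congr 1
  have har : 0 ≤ ar s := by
    unfold ar
    have g1 : 0 < Real.Gamma s := Real.Gamma_pos_of_pos (by linarith)
    have g2 : 0 < Real.Gamma (11 + s) := Real.Gamma_pos_of_pos (by linarith)
    positivity
  have hI : ∫ t in Ioi (0 : ℝ), t ^ (s - 1) * (Th t).toReal =
      ar s * ((zs s).toReal * (rs s).toReal) := by
    have hmeas : AEStronglyMeasurable (fun t : ℝ => t ^ (s - 1) * (Th t).toReal)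
        (volume.restrict (Ioi (0 : ℝ))) := by
      refine AEStronglyMeasurable.mul ?_ ?_
      · exact (Measurable.pow_const measurable_id _).aestronglyMeasurable
      · exact (aemeasurable_restrict_of_antitoneOn measurableSet_Ioi hanti).aestronglyMeasurable
    rw [integral_eq_lintegral_of_nonneg_ae]
    · have h8 : ∫⁻ t in Ioi (0 : ℝ), ENNReal.ofReal (t ^ (s - 1) * (Th t).toReal) =
          ∫⁻ t in Ioi (0 : ℝ), ENNReal.ofReal (t ^ (s - 1)) * Th t := by
        refine setLIntegral_congr_fun measurableSet_Ioi fun t ht => ?_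
        have ht0 : (0:ℝ) < t := ht
        show ENNReal.ofReal (t ^ (s - 1) * (Th t).toReal) = _
        rw [ENNReal.ofReal_mul (by positivity), ENNReal.ofReal_toReal (hT1 t ht0)]
      rw [h8, hT5 s hs, ENNReal.toReal_mul, ENNReal.toReal_mul, ENNReal.toReal_ofReal har]
    · refine (ae_restrict_iff' measurableSet_Ioi).2 (Eventually.of_forall fun t ht => ?_)
      have ht0 : (0:ℝ) < t := ht
      show 0 ≤ t ^ (s - 1) * (Th t).toReal
      exact mul_nonneg (by positivity) ENNReal.toReal_nonneg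
    · exact hmeas
  rw [hI]
  ring

end Pool.Agent.H603.BG
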